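import Pool.Agent.R796.ShFinal

/-!
# Shadows of Euclidean Vietoris-Rips complexes of samples: the answer in every dimension

Definitions (`Pool.Agent.R796.ShDefs`), following the problem text:
* `E N = ℝ^N`, `dM M` is the intrinsic metric of `M ⊆ ℝ^N` (infimum of the lengths of paths in `M`);
* `Admissible M`: `M` is compact and connected, geodesic for `dM` (`IsGeodesic`), satisfies (M1) and
  (M2) (`CondM1`, `CondM2`), and has a retraction `π : U → M` of a neighbourhood with (M3)
  (`CondM3`);
* `shadow β S`: the union of the convex hulls of the nonempty finite subsets of `S` of diameter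
  less than `β`;
* `Reconstructs M`: there is `β₀ > 0` such that for all `β ∈ (0, β₀)` there is `η > 0` such that the
  shadow `Sh(R_β(S))` of every finite nonempty `S` with `d_H(S, M) < η` is homotopy equivalent to
  `M`;
* `Question N`: every admissible `M ⊆ ℝ^N` satisfies `Reconstructs M`.

The counterexample for `N ≥ 2` is the planar arc `c(t) = t exp(i θ(t))`, `0 ≤ t ≤ 1`, with
`θ(t) = min (max (64 sin (log t)) 0) (2π)`: it makes a full turn between the radii `τ` and
`(1.11) τ` for `τ = exp(-2πk)`, `k = 1, 2, …`, and at the scale `β = τ/4` the two ends of this turn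
are joined by an edge, while the point `-τ/2` is not covered by the shadow.
-/

set_option autoImplicit false

universe u

namespace Pool.Agent.Results.MP_320b68_gt.ShadowOfSamples

open Pool.Agent.R796.Sh

/-- The assertion of Q1 holds in dimension `N ≥ 1` if and only if `N = 1`. -/
theorem result (N : ℕ) (hN : 1 ≤ N) : Question.{u} N ↔ N = 1 :=
  main N hN

end Pool.Agent.Results.MP_320b68_gt.ShadowOfSamples
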